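import Mathlib
import Pool.Agent.Y268.D3.Stm
import Pool.Agent.H674R2.Kad3.Word

/-! # Project D3: bounded cocycles with mean zero vanish -/

open scoped ComplexOrder InnerProductSpace ComplexConjugate
open Finset

set_option autoImplicit false
set_option linter.all false

noncomputable section

namespace Pool.Agent.Y447.D3

open H759R2.Kad H711R2.KG Y268.D3

section

variable {B : Type} [CStarAlgebra B]

/-- square of the norm given by the trace -/
def N2 (τ : B →ₗ[ℂ] ℂ) (z : B) : ℝ := (τ (star z * z)).re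

variable {τ : B →ₗ[ℂ] ℂ}

theorem N2_nonneg (hτ : IsTracialState τ) (z : B) : 0 ≤ N2 τ z := (Complex.le_def.1 (hτ.pos z)).1

theorem N2_smul (z : B) (c : ℂ) : N2 τ (c • z) = ‖c‖ ^ 2 * N2 τ z := by
  unfold N2
  rw [star_smul, smul_mul_smul_comm, map_smul, smul_eq_mul, Complex.star_def,
    ← Complex.normSq_eq_conj_mul_self, Complex.re_ofReal_mul, Complex.normSq_eq_norm_sq]

/-- multiplication on both sides -/
def ml (u v : B) : B →L[ℂ] B :=
  ((ContinuousLinearMap.mul ℂ B).flip v).comp (ContinuousLinearMap.mul ℂ B u)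

theorem ml_apply (u v y : B) : ml u v y = u * y * v := rfl

theorem conj_norm (h : unitary B) (z : B) : ‖star (h : B) * z * (h : B)‖ = ‖z‖ := by
  rw [CStarRing.norm_mul_coe_unitary, ← Unitary.coe_star, CStarRing.norm_coe_unitary_mul]

theorem u1 (h : unitary B) : (h : B) * star (h : B) = 1 := Unitary.coe_mul_star_self h

theorem u2 (h : unitary B) : star (h : B) * (h : B) = 1 := Unitary.coe_star_mul_self h

theorem cancel1 (b : unitary B) (x : B) : (b : B) * (star (b : B) * x * (b : B)) * star (b : B) = x := by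
  have : (b : B) * (star (b : B) * x * (b : B)) * star (b : B) =
      ((b : B) * star (b : B)) * x * ((b : B) * star (b : B)) := by noncomm_ring
  rw [this, u1, one_mul, mul_one]

variable [PartialOrder B] [StarOrderedRing B]

/-- the trace as a continuous functional -/
def tc (hτ : IsTracialState τ) : B →L[ℂ] ℂ :=
  τ.mkContinuous 1 fun x => by rw [one_mul]; exact A06.tau_norm_le hτ x

theorem tc_apply (hτ : IsTracialState τ) (x : B) : tc hτ x = τ x := rfl

theorem N2_comb (hτ : IsTracialState τ) (b h : unitary B) (zb z0 : B) (α β : ℝ) :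
    N2 τ ((α : ℂ) • zb + (β : ℂ) • (star (b : B) * (star (h : B) * z0 * (h : B)) * (b : B))) =
      α ^ 2 * N2 τ zb + β ^ 2 * N2 τ z0 + α * β *
        (τ (star zb * (star (b : B) * (star (h : B) * z0 * (h : B)) * (b : B))) +
          τ ((star (b : B) * (star (h : B) * star z0 * (h : B)) * (b : B)) * zb)).re := by
  set w := star (b : B) * (star (h : B) * z0 * (h : B)) * (b : B) with hw
  have hws : star w = star (b : B) * (star (h : B) * star z0 * (h : B)) * (b : B) := by
    rw [hw]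
    simp only [star_mul, star_star]
    noncomm_ring
  have hww : τ (star w * w) = τ (star z0 * z0) := by
    rw [hws, hw]
    have e1 : star (b : B) * (star (h : B) * star z0 * (h : B)) * (b : B) *
        (star (b : B) * (star (h : B) * z0 * (h : B)) * (b : B)) =
        star (b : B) * (star (h : B) * star z0 * (h : B) * ((b : B) * star (b : B)) *
          (star (h : B) * z0 * (h : B)) * (b : B)) := by noncomm_ring
    rw [e1, u1, mul_one, hτ.comm]
    have e2 : star (h : B) * star z0 * (h : B) * (star (h : B) * z0 * (h : B)) * (b : B) *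
        star (b : B) = star (h : B) * (star z0 * ((h : B) * star (h : B)) * z0 * (h : B) *
          ((b : B) * star (b : B))) := by noncomm_ring
    rw [e2, u1, u1, mul_one, mul_one, hτ.comm]
    have e3 : star z0 * z0 * (h : B) * star (h : B) = star z0 * z0 * ((h : B) * star (h : B)) := by
      noncomm_ring
    rw [e3, u1, mul_one]
  unfold N2
  rw [← hws]
  have e4 : star ((α : ℂ) • zb + (β : ℂ) • w) * ((α : ℂ) • zb + (β : ℂ) • w) =
      ((α ^ 2 : ℝ) : ℂ) • (star zb * zb) + ((β ^ 2 : ℝ) : ℂ) • (star w * w) +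
        ((α * β : ℝ) : ℂ) • (star zb * w + star w * zb) := by
    rw [star_add, star_smul, star_smul, Complex.star_def, Complex.conj_ofReal, Complex.conj_ofReal,
      add_mul, mul_add, mul_add]
    simp only [smul_mul_assoc, mul_smul_comm, smul_smul, smul_add]
    push_cast
    rw [sq, sq, mul_comm (β : ℂ) (α : ℂ)]
    abel
  rw [e4, map_add, map_add, map_smul, map_smul, map_smul, hww, map_add, smul_eq_mul, smul_eq_mul,
    smul_eq_mul, Complex.add_re, Complex.add_re, Complex.re_ofReal_mul, Complex.re_ofReal_mul,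
    Complex.re_ofReal_mul]

end

/-- the main inequality -/
theorem key (hR : S_real) (B : Type) [CStarAlgebra B] [PartialOrder B] [StarOrderedRing B]
    (τ : B →ₗ[ℂ] ℂ) (hτ : IsTracialState τ) (E : Mean (unitary B))
    (D1 : ∀ (φ : B →L[ℂ] ℂ) (y : B),
      E.E (fun v => φ (star (v : B) * y * (v : B))) = τ y * φ 1)
    (D2 : ∀ (φ : B →L[ℂ] ℂ) (y : B),
      E.E (fun v => φ ((v : B) * y * star (v : B))) = τ y * φ 1)
    (lam : unitary B → (B →L[ℂ] ℂ)) (C : ℝ) (hC : ∀ a, ‖lam a‖ ≤ C)
    (h1 : ∀ a, lam a 1 = 0)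
    (hc : ∀ (a b : unitary B) (z : B), lam (a * b) z = lam b z + lam a ((b : B) * z * star (b : B)))
    (hE : ∀ z, E.E (fun h => lam h z) = 0) (M0 : ℝ)
    (hM : ∀ a z, ∀ s : ℝ, 0 < s → (lam a z).re ≤ M0 * (N2 τ z + s ^ 2) / (2 * s))
    (z0 : B) (ht0 : τ z0 = 0) (hz0 : N2 τ z0 ≤ 1) (hM0 : 0 ≤ M0) (a b : unitary B) (zb : B)
    (hzb : N2 τ zb ≤ 1) (α β : ℝ) (hα : 0 < α) (hβ : 0 < β) :
    α * (lam b zb).re + β * (lam a z0 - E.E (fun h => lam (star h) z0)).re ≤
      M0 * √(α ^ 2 + β ^ 2) := by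
  have hC0 : 0 ≤ C := (norm_nonneg _).trans (hC 1)
  set s := √(α ^ 2 + β ^ 2) with hs
  have hs2 : s ^ 2 = α ^ 2 + β ^ 2 := Real.sq_sqrt (by positivity)
  have hs0 : 0 < s := Real.sqrt_pos.2 (by positivity)
  have hl1 : ∀ z, lam 1 z = 0 := by
    intro z
    have := hc 1 1 z
    simp only [mul_one, OneMemClass.coe_one, one_mul, star_one] at this
    have h2 : lam 1 z + 0 = lam 1 z + lam 1 z := by rw [add_zero]; exact this
    exact (add_left_cancel h2).symm
  have hstar : ∀ (h : unitary B) (z : B), lam h (star (h : B) * z * (h : B)) = - lam (star h) z := by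
    intro h z
    have h2 := hc h (star h) z
    rw [Unitary.mul_star_self, hl1, Unitary.coe_star, star_star] at h2
    exact eq_neg_of_add_eq_zero_right h2.symm
  set δ := E.E (fun h => lam (star h) z0) with hδ
  -- the vectors
  set zf : unitary B → B := fun h =>
    (α : ℂ) • zb + (β : ℂ) • (star (b : B) * (star (h : B) * z0 * (h : B)) * (b : B)) with hzf
  set F : unitary B → ℂ := fun h => lam (a * h * b) (zf h) with hF
  set wb := (b : B) * zb * star (b : B) with hwb
  have hFe : ∀ h : unitary B, F h = (α : ℂ) * lam b zb +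
      (β : ℂ) * lam b (star (b : B) * (star (h : B) * z0 * (h : B)) * (b : B)) +
      (α : ℂ) * lam h wb + (-(β : ℂ)) * lam (star h) z0 +
      (α : ℂ) * lam a ((h : B) * wb * star (h : B)) + (β : ℂ) * lam a z0 := by
    intro h
    have e1 : (b : B) * zf h * star (b : B) = (α : ℂ) • wb + (β : ℂ) •
        (star (h : B) * z0 * (h : B)) := by
      simp only [hzf]
      rw [mul_add, add_mul, mul_smul_comm, mul_smul_comm, smul_mul_assoc, smul_mul_assoc, cancel1]
    have e2 : (h : B) * ((α : ℂ) • wb + (β : ℂ) • (star (h : B) * z0 * (h : B))) * star (h : B) =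
        (α : ℂ) • ((h : B) * wb * star (h : B)) + (β : ℂ) • z0 := by
      rw [mul_add, add_mul, mul_smul_comm, mul_smul_comm, smul_mul_assoc, smul_mul_assoc, cancel1]
    have e3 : F h = lam b (zf h) + (lam h ((α : ℂ) • wb + (β : ℂ) • (star (h : B) * z0 * (h : B))) +
        lam a ((α : ℂ) • ((h : B) * wb * star (h : B)) + (β : ℂ) • z0)) := by
      simp only [hF]
      rw [hc (a * h) b, e1, hc a h, e2]
    rw [e3]
    simp only [hzf, map_add, map_smul, smul_eq_mul, hstar]
    ring
  have hEF : E.E F = (α : ℂ) * lam b zb + (β : ℂ) * (lam a z0 - δ) := by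
    have e0 : F = fun h : unitary B => (α : ℂ) * lam b zb +
      (β : ℂ) * lam b (star (b : B) * (star (h : B) * z0 * (h : B)) * (b : B)) +
      (α : ℂ) * lam h wb + (-(β : ℂ)) * lam (star h) z0 +
      (α : ℂ) * lam a ((h : B) * wb * star (h : B)) + (β : ℂ) * lam a z0 := funext hFe
    have g1 : E.E (fun h : unitary B => lam b (star (b : B) * (star (h : B) * z0 * (h : B)) * (b : B))) = 0 := by
      have := D1 ((lam b).comp (ml (star (b : B)) (b : B))) z0
      rw [ht0, zero_mul] at this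
      exact this
    have g2 : E.E (fun h : unitary B => lam a ((h : B) * wb * star (h : B))) = 0 := by
      rw [D2, h1, mul_zero]
    rw [e0, E.add', E.add', E.add', E.add', E.add', E.const, E.const, E.const_mul, E.const_mul,
      E.const_mul, E.const_mul, g1, g2, hE, ← hδ]
    ring
  -- the cross terms
  set X : unitary B → ℂ := fun h =>
    τ (star zb * (star (b : B) * (star (h : B) * z0 * (h : B)) * (b : B))) +
      τ ((star (b : B) * (star (h : B) * star z0 * (h : B)) * (b : B)) * zb) with hX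
  set φ1 : B →L[ℂ] ℂ := (tc hτ).comp ((ml (star zb) 1).comp (ml (star (b : B)) (b : B))) with hφ1
  set φ2 : B →L[ℂ] ℂ := (tc hτ).comp ((ml 1 zb).comp (ml (star (b : B)) (b : B))) with hφ2
  have hφ1e : ∀ y, φ1 y = τ (star zb * (star (b : B) * y * (b : B))) := by
    intro y
    show τ (star zb * (star (b : B) * y * (b : B)) * 1) = _
    rw [mul_one]
  have hφ2e : ∀ y, φ2 y = τ ((star (b : B) * y * (b : B)) * zb) := by
    intro y
    show τ (1 * (star (b : B) * y * (b : B)) * zb) = _
    rw [one_mul]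
  have hXe : X = fun h : unitary B => φ1 (star (h : B) * z0 * (h : B)) + φ2 (star (h : B) * star z0 * (h : B)) := by
    funext h
    rw [hφ1e, hφ2e]
  have hEX : E.E X = 0 := by
    rw [hXe, E.add', D1, D1, ht0, A06.tau_star hτ, ht0, map_zero, zero_mul, zero_mul, add_zero]
  have hXb : ∀ h, ‖X h‖ ≤ ‖φ1‖ * ‖z0‖ + ‖φ2‖ * ‖z0‖ := by
    intro h
    rw [hXe]
    refine (norm_add_le _ _).trans (add_le_add ?_ ?_)
    · refine (φ1.le_opNorm _).trans ?_
      rw [conj_norm]
    · refine (φ2.le_opNorm _).trans ?_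
      rw [conj_norm, norm_star]
  have hFb : ∀ h, ‖F h‖ ≤ C * (α * ‖zb‖ + β * ‖z0‖) := by
    intro h
    have g1 : ‖zf h‖ ≤ α * ‖zb‖ + β * ‖z0‖ := by
      simp only [hzf]
      refine (norm_add_le _ _).trans (add_le_add ?_ ?_)
      · rw [norm_smul, Complex.norm_real, Real.norm_of_nonneg hα.le]
      · rw [norm_smul, Complex.norm_real, Real.norm_of_nonneg hβ.le, conj_norm, conj_norm]
    calc ‖F h‖ ≤ ‖lam (a * h * b)‖ * ‖zf h‖ := (lam (a * h * b)).le_opNorm _
      _ ≤ C * (α * ‖zb‖ + β * ‖z0‖) := mul_le_mul (hC _) g1 (norm_nonneg _) hC0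
  -- the nonnegative function
  set c0 : ℝ := M0 * (α ^ 2 * N2 τ zb + β ^ 2 * N2 τ z0 + s ^ 2) / (2 * s) with hc0
  set c1 : ℝ := M0 * (α * β) / (2 * s) with hc1
  set G : unitary B → ℝ := fun h => c0 + c1 * (X h).re - (F h).re with hG
  have hG0 : ∀ h, 0 ≤ G h := by
    intro h
    have g1 := hM (a * h * b) (zf h) s hs0
    have g2 : N2 τ (zf h) = α ^ 2 * N2 τ zb + β ^ 2 * N2 τ z0 + α * β * (X h).re := by
      simp only [hzf, hX]
      exact N2_comb hτ b h zb z0 α β
    rw [g2] at g1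
    have g3 : M0 * (α ^ 2 * N2 τ zb + β ^ 2 * N2 τ z0 + α * β * (X h).re + s ^ 2) / (2 * s) =
        c0 + c1 * (X h).re := by
      rw [hc0, hc1]
      ring
    rw [g3] at g1
    simp only [hG]
    linarith
  have hGb : ∀ h, |G h| ≤ |c0| + |c1| * (‖φ1‖ * ‖z0‖ + ‖φ2‖ * ‖z0‖) +
      C * (α * ‖zb‖ + β * ‖z0‖) := by
    intro h
    simp only [hG]
    have g1 := hXb h
    have g2 := hFb h
    have g3 := Complex.abs_re_le_norm (X h)
    have g4 := Complex.abs_re_le_norm (F h)
    have g5 : |c1 * (X h).re| ≤ |c1| * (‖φ1‖ * ‖z0‖ + ‖φ2‖ * ‖z0‖) := by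
      rw [abs_mul]
      exact mul_le_mul_of_nonneg_left (g3.trans g1) (abs_nonneg _)
    calc |c0 + c1 * (X h).re - (F h).re| ≤ |c0 + c1 * (X h).re| + |(F h).re| := abs_sub _ _
      _ ≤ (|c0| + |c1 * (X h).re|) + |(F h).re| := add_le_add (abs_add_le _ _) le_rfl
      _ ≤ _ := by linarith
  have hpos := ((hR (unitary B) E).1 G _ hGb).2 hG0
  have hGE : E.E (fun h => (G h : ℂ)) = ((c0 - (E.E F).re : ℝ) : ℂ) := by
    have g1 : (fun h => (G h : ℂ)) = fun h => (c0 : ℂ) + (c1 : ℂ) * ((X h).re : ℂ) +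
        (-1 : ℂ) * ((F h).re : ℂ) := by
      funext h
      simp only [hG]
      push_cast
      ring
    rw [g1, E.add', E.add', E.const, E.const_mul, E.const_mul,
      ((hR (unitary B) E).2 X _ hXb).2, ((hR (unitary B) E).2 F _ hFb).2, hEX]
    push_cast
    rw [Complex.zero_re]
    push_cast
    ring
  rw [hGE, Complex.ofReal_re, hEF, Complex.add_re, Complex.re_ofReal_mul,
    Complex.re_ofReal_mul] at hpos
  have hfin : c0 ≤ M0 * s := by
    rw [hc0, div_le_iff₀ (by positivity)]
    have g1 : α ^ 2 * N2 τ zb + β ^ 2 * N2 τ z0 + s ^ 2 ≤ 2 * s ^ 2 := by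
      have g2 : α ^ 2 * N2 τ zb ≤ α ^ 2 * 1 := mul_le_mul_of_nonneg_left hzb (by positivity)
      have g3 : β ^ 2 * N2 τ z0 ≤ β ^ 2 * 1 := mul_le_mul_of_nonneg_left hz0 (by positivity)
      rw [hs2]
      linarith
    calc M0 * (α ^ 2 * N2 τ zb + β ^ 2 * N2 τ z0 + s ^ 2) ≤ M0 * (2 * s ^ 2) :=
          mul_le_mul_of_nonneg_left g1 hM0
      _ = M0 * s * (2 * s) := by ring
  linarith

theorem t (hR : S_real) : S_doubling := by
  intro B _ _ _ τ hτ E D1 D2 lam M C hC hM h1 hc hE
  have hM' : ∀ a z, ‖lam a z‖ ≤ M * √(N2 τ z) := hM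
  -- the supremum
  set S : Set ℝ := {r | ∃ (a : unitary B) (z : B), N2 τ z ≤ 1 ∧ r = (lam a z).re} with hS
  have hN0 : N2 τ (0 : B) = 0 := by
    unfold N2
    simp
  have h0S : (0 : ℝ) ∈ S := ⟨1, 0, by rw [hN0]; exact zero_le_one, by simp⟩
  have hbdd : BddAbove S := by
    refine ⟨|M|, ?_⟩
    rintro r ⟨a, z, hz, rfl⟩
    refine (Complex.re_le_norm _).trans ((hM' a z).trans ?_)
    have g1 : √(N2 τ z) ≤ 1 := Real.sqrt_le_one.2 hz
    calc M * √(N2 τ z) ≤ |M| * √(N2 τ z) :=
          mul_le_mul_of_nonneg_right (le_abs_self M) (Real.sqrt_nonneg _)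
      _ ≤ |M| * 1 := mul_le_mul_of_nonneg_left g1 (abs_nonneg _)
      _ = |M| := mul_one _
  set M0 := sSup S with hM0d
  have hM0 : 0 ≤ M0 := le_csSup hbdd h0S
  have hup : ∀ a z, ∀ s : ℝ, 0 < s → (lam a z).re ≤ M0 * (N2 τ z + s ^ 2) / (2 * s) := by
    intro a z s hs
    have hN := N2_nonneg hτ z
    rcases hN.eq_or_lt with g0 | g0
    · have g1 := hM' a z
      rw [← g0, Real.sqrt_zero, mul_zero] at g1
      have g2 := (Complex.re_le_norm (lam a z)).trans g1
      refine g2.trans ?_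
      positivity
    · set r := √(N2 τ z) with hr
      have hr0 : 0 < r := Real.sqrt_pos.2 g0
      have hr2 : r ^ 2 = N2 τ z := Real.sq_sqrt hN
      have g1 : ((1 / r : ℝ) : ℂ) • z = ((1 / r : ℝ) : ℂ) • z := rfl
      have g2 : N2 τ (((1 / r : ℝ) : ℂ) • z) ≤ 1 := by
        rw [N2_smul, Complex.norm_real, Real.norm_of_nonneg (by positivity), ← hr2, ← mul_pow,
          one_div_mul_cancel hr0.ne', one_pow]
      have g3 : (lam a (((1 / r : ℝ) : ℂ) • z)).re ≤ M0 := le_csSup hbdd ⟨a, _, g2, rfl⟩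
      rw [map_smul, smul_eq_mul, Complex.re_ofReal_mul] at g3
      have g4 : (lam a z).re ≤ M0 * r := by
        have : (lam a z).re = r * (1 / r * (lam a z).re) := by
          field_simp
        rw [this, mul_comm M0]
        exact mul_le_mul_of_nonneg_left g3 hr0.le
      refine g4.trans ?_
      rw [le_div_iff₀ (by positivity), ← hr2]
      have g5 : r * (2 * s) ≤ r ^ 2 + s ^ 2 := by nlinarith [sq_nonneg (r - s)]
      calc M0 * r * (2 * s) = M0 * (r * (2 * s)) := by ring
        _ ≤ M0 * (r ^ 2 + s ^ 2) := mul_le_mul_of_nonneg_left g5 hM0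
  -- the claim
  have claim : ∀ z0 : B, τ z0 = 0 → N2 τ z0 ≤ 1 → ∀ a,
      (lam a z0 - E.E (fun h => lam (star h) z0)).re ≤ 0 := by
    intro z0 ht0 hz0 a
    by_contra hcon
    push Not at hcon
    set η := (lam a z0 - E.E (fun h => lam (star h) z0)).re with hη
    have g1 : ∀ α β : ℝ, 0 < α → 0 < β → α * M0 + β * η ≤ M0 * √(α ^ 2 + β ^ 2) := by
      intro α β hα hβ
      have g2 : M0 ≤ (M0 * √(α ^ 2 + β ^ 2) - β * η) / α := by
        refine csSup_le ⟨0, h0S⟩ ?_
        rintro r ⟨b, zb, hzb, rfl⟩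
        rw [le_div_iff₀ hα]
        have := key hR B τ hτ E D1 D2 lam C hC h1 hc hE M0 hup z0 ht0 hz0 hM0 a b zb hzb α β hα hβ
        rw [← hη] at this
        linarith
      rw [le_div_iff₀ hα] at g2
      linarith
    rcases hM0.eq_or_lt with g0 | g0
    · have := g1 1 1 one_pos one_pos
      rw [← g0] at this
      linarith
    · have g2 := g1 M0 η g0 hcon
      have g3 : (M0 * M0 + η * η) ^ 2 ≤ (M0 * √(M0 ^ 2 + η ^ 2)) ^ 2 :=
        pow_le_pow_left₀ (by positivity) g2 2
      rw [mul_pow, Real.sq_sqrt (by positivity)] at g3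
      have g4 : 0 < η ^ 2 := by positivity
      have g5 : 0 < M0 ^ 2 := by positivity
      nlinarith
  -- vanishing on the kernel of the trace
  have hl1 : ∀ z, lam 1 z = 0 := by
    intro z
    have := hc 1 1 z
    simp only [mul_one, OneMemClass.coe_one, one_mul, star_one] at this
    have h2 : lam 1 z + 0 = lam 1 z + lam 1 z := by rw [add_zero]; exact this
    exact (add_left_cancel h2).symm
  have hD : ∀ (c : ℂ) (z : B), E.E (fun h => lam (star h) (c • z)) =
      c * E.E (fun h => lam (star h) z) := by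
    intro c z
    rw [← E.const_mul]
    congr 1
    funext h
    rw [map_smul, smul_eq_mul]
  have v1 : ∀ z0 : B, τ z0 = 0 → N2 τ z0 ≤ 1 → ∀ a,
      lam a z0 = E.E (fun h => lam (star h) z0) := by
    intro z0 ht0 hz0 a
    set w := lam a z0 - E.E (fun h => lam (star h) z0) with hw
    by_contra hne
    have hw0 : w ≠ 0 := by
      rw [hw, sub_ne_zero]
      exact hne
    have hwn : 0 < ‖w‖ := norm_pos_iff.2 hw0
    have g1 := claim ((conj w / ‖w‖) • z0) (by rw [map_smul, ht0, smul_zero]) (by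
      rw [N2_smul, norm_div, RCLike.norm_conj, Complex.norm_real, norm_norm, div_self hwn.ne',
        one_pow, one_mul]
      exact hz0) a
    rw [hD, map_smul, smul_eq_mul, ← mul_sub, ← hw, div_mul_eq_mul_div,
      ← Complex.normSq_eq_conj_mul_self, Complex.normSq_eq_norm_sq, ← Complex.ofReal_div,
      Complex.ofReal_re, sq, mul_div_assoc, div_self hwn.ne', mul_one] at g1
    linarith
  have v2 : ∀ z0 : B, τ z0 = 0 → N2 τ z0 ≤ 1 → ∀ a, lam a z0 = 0 := by
    intro z0 ht0 hz0 a
    rw [v1 z0 ht0 hz0 a, ← v1 z0 ht0 hz0 1, hl1]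
  have v3 : ∀ z0 : B, τ z0 = 0 → ∀ a, lam a z0 = 0 := by
    intro z0 ht0 a
    have hN := N2_nonneg hτ z0
    set r : ℝ := 1 / (1 + N2 τ z0) with hr
    have hr0 : 0 < r := by positivity
    have g1 := v2 ((r : ℂ) • z0) (by rw [map_smul, ht0, smul_zero]) (by
      rw [N2_smul, Complex.norm_real, Real.norm_of_nonneg hr0.le, hr, div_pow, one_pow,
        one_div, inv_mul_le_iff₀ (by positivity)]
      nlinarith) a
    rw [map_smul, smul_eq_mul] at g1
    rcases mul_eq_zero.1 g1 with g2 | g2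
    · exact absurd (Complex.ofReal_eq_zero.1 g2) hr0.ne'
    · exact g2
  intro a z
  have g1 : z = (z - (τ z) • (1 : B)) + (τ z) • (1 : B) := by rw [sub_add_cancel]
  have g2 : τ (z - (τ z) • (1 : B)) = 0 := by
    rw [map_sub, map_smul, hτ.one, smul_eq_mul, mul_one, sub_self]
  rw [g1, map_add, v3 _ g2, map_smul, h1, smul_zero, add_zero]

end Pool.Agent.Y447.D3
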